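import Mathlib
import Pool.Agent.HMT.Stmts

/-!
Row LEA of the squad HMT: numbers of leaves.
-/

namespace Pool.Agent.HMT.H52

open Pool.Agent.HMT

variable {q T : ℕ} {ε : ℤˣ}

/-- spider vertices -/
def vl (g : {g : Equiv.Perm (Fin q → Bool) // Equiv.Perm.sign g = ε}) (k : KX q T)
    (c : Fin (kx q T k + 1)) : (cf q T).Vert ε := Sum.inl (g, ⟨k, c⟩)

/-- hubs -/
def vh (j : Fin q → Bool) : (cf q T).Vert ε := Sum.inr (Sum.inl j)

/-- tree vertices -/
def vr (r : RR q) : (cf q T).Vert ε := Sum.inr (Sum.inr r)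

theorem adj_iff (v w : (cf q T).Vert ε) : ((cf q T).Gr ε Finset.univ).Adj v w ↔
    v ≠ w ∧ ((cf q T).rel ε Finset.univ v w ∨ (cf q T).rel ε Finset.univ w v) :=
  SimpleGraph.fromRel_adj _ _ _

theorem rel_ll (g g' : {g : Equiv.Perm (Fin q → Bool) // Equiv.Perm.sign g = ε}) (k k' : KX q T)
    (c : Fin (kx q T k + 1)) (c' : Fin (kx q T k' + 1)) :
    (cf q T).rel ε Finset.univ (vl g k c) (vl g' k' c') ↔
      g = g' ∧ (SimpleGraph.fromRel (srel q T)).Adj ⟨k, c⟩ ⟨k', c'⟩ := Iff.rfl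

theorem rel_lh (g : {g : Equiv.Perm (Fin q → Bool) // Equiv.Perm.sign g = ε}) (k : KX q T)
    (c : Fin (kx q T k + 1)) (j : Fin q → Bool) :
    (cf q T).rel ε Finset.univ (vl g k c) (vh j) ↔
      (⟨k, c⟩ : XX q T) = ⟨some (g.1.symm j, Fin.last T), 0⟩ := Iff.rfl

theorem rel_lr (g : {g : Equiv.Perm (Fin q → Bool) // Equiv.Perm.sign g = ε}) (k : KX q T)
    (c : Fin (kx q T k + 1)) (r : RR q) :
    ¬ (cf q T).rel ε Finset.univ (vl g k c) (vr r) := fun h => h

theorem rel_hl (g : {g : Equiv.Perm (Fin q → Bool) // Equiv.Perm.sign g = ε}) (k : KX q T)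
    (c : Fin (kx q T k + 1)) (j : Fin q → Bool) :
    ¬ (cf q T).rel ε Finset.univ (vh j) (vl g k c) := fun h => h

theorem rel_rl (g : {g : Equiv.Perm (Fin q → Bool) // Equiv.Perm.sign g = ε}) (k : KX q T)
    (c : Fin (kx q T k + 1)) (r : RR q) :
    ¬ (cf q T).rel ε Finset.univ (vr r) (vl g k c) := fun h => h

theorem rel_rh (j : Fin q → Bool) (r : RR q) :
    ¬ (cf q T).rel ε Finset.univ (vr r) (vh j) := fun h => h

theorem rel_hr (j : Fin q → Bool) (r : RR q) :
    (cf q T).rel ε Finset.univ (vh j) (vr r) ↔ Sum.inl j = rpar q r := by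
  have h : (cf q T).rel ε Finset.univ (vh j) (vr r) ↔
      (Sum.inl j = rpar q r ∧ r ∈ (Finset.univ : Finset (cf q T).R)) := Iff.rfl
  rw [h]
  exact ⟨fun h => h.1, fun h => ⟨h, Finset.mem_univ _⟩⟩

theorem rel_rr (r r' : RR q) :
    (cf q T).rel ε Finset.univ (vr r) (vr r') ↔ Sum.inr r = rpar q r' := by
  have h : (cf q T).rel ε Finset.univ (vr r) (vr r') ↔
      (Sum.inr r = rpar q r' ∧ r' ∈ (Finset.univ : Finset (cf q T).R)) := Iff.rfl
  rw [h]
  exact ⟨fun h => h.1, fun h => ⟨h, Finset.mem_univ _⟩⟩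

/-- the level of a tree vertex: `0` for the path vertices -/
def lvl (r : RR q) : ℕ :=
  match r with
  | ⟨_, .inl _⟩ => 1
  | ⟨_, .inr ⟨_, c⟩⟩ => c.val

theorem lvl_par {r r' : RR q} (h : Sum.inr r = rpar q r') : lvl r = 0 := by
  obtain ⟨j, c | ⟨b, c⟩⟩ := r'
  · simp [rpar] at h
  · simp only [rpar] at h
    split_ifs at h with h1 h2
    · rw [Sum.inr.injEq] at h
      rw [h]
      rfl
    · rw [Sum.inr.injEq] at h
      rw [h]
      rfl

theorem vl_inj {g g' : {g : Equiv.Perm (Fin q → Bool) // Equiv.Perm.sign g = ε}} {k k' : KX q T}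
    {c : Fin (kx q T k + 1)} {c' : Fin (kx q T k' + 1)} (h : vl g k c = vl g' k' c') :
    g = g' ∧ k = k' ∧ c.val = c'.val := by
  have h1 := Sum.inl.inj h
  have h2 : g = g' := congrArg Prod.fst h1
  have h3 : (⟨k, c⟩ : XX q T) = ⟨k', c'⟩ := congrArg Prod.snd h1
  exact ⟨h2, congrArg Sigma.fst h3, congrArg (fun x : XX q T => x.2.val) h3⟩

theorem case_v (v : (cf q T).Vert ε) : (∃ g k c, v = vl g k c) ∨ (∃ j, v = vh j) ∨
    (∃ j c, v = vr ⟨j, Sum.inl c⟩) ∨ ∃ j b c, v = vr ⟨j, Sum.inr ⟨b, c⟩⟩ := by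
  obtain ⟨g, k, c⟩ | j | ⟨j, c | ⟨b, c⟩⟩ := v
  · exact Or.inl ⟨g, k, c, rfl⟩
  · exact Or.inr (Or.inl ⟨j, rfl⟩)
  · exact Or.inr (Or.inr (Or.inl ⟨j, c, rfl⟩))
  · exact Or.inr (Or.inr (Or.inr ⟨j, b, c, rfl⟩))

/-- the neighbour of a leaf of a spider -/
theorem nb_l (g : {g : Equiv.Perm (Fin q → Bool) // Equiv.Perm.sign g = ε}) (k : KX q T)
    (c : Fin (kx q T k + 1)) (hc : c ≠ 0) (u : (cf q T).Vert ε) :
    ((cf q T).Gr ε Finset.univ).Adj (vl g k c) u ↔ u = vl g k 0 := by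
  have hc' : c.val ≠ 0 := fun h => hc (Fin.ext h)
  rw [adj_iff]
  constructor
  · rintro ⟨-, h⟩
    rcases case_v u with ⟨g', k', c', rfl⟩ | ⟨j, rfl⟩ | ⟨j, c', rfl⟩ | ⟨j, b, c', rfl⟩
    · rw [rel_ll, rel_ll] at h
      have h1 : g = g' ∧ (SimpleGraph.fromRel (srel q T)).Adj ⟨k, c⟩ ⟨k', c'⟩ := by
        rcases h with h | h
        · exact h
        · exact ⟨h.1.symm, h.2.symm⟩
      obtain ⟨hg, h2⟩ := h1
      rw [SimpleGraph.fromRel_adj] at h2
      obtain ⟨-, h3 | h3⟩ := h2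
      · rcases h3 with h4 | h4
        · exact absurd h4.2.1 hc'
        · exact absurd h4.1 hc'
      · rcases h3 with h4 | h4
        · obtain ⟨h5, h6, -⟩ := h4
          have h5' : k' = k := h5
          subst h5'
          have h7 : c' = 0 := Fin.ext h6
          rw [h7, hg]
        · exact absurd h4.2.1 hc'
    · rcases h with h | h
      · rw [rel_lh] at h
        exact absurd (congrArg (fun x : XX q T => x.2.val) h) hc'
      · exact absurd h (rel_hl g k c j)
    · rcases h with h | h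
      · exact absurd h (rel_lr g k c _)
      · exact absurd h (rel_rl g k c _)
    · rcases h with h | h
      · exact absurd h (rel_lr g k c _)
      · exact absurd h (rel_rl g k c _)
  · rintro rfl
    refine ⟨fun h => hc' (vl_inj h).2.2, Or.inr ?_⟩
    rw [rel_ll]
    refine ⟨rfl, ?_⟩
    rw [SimpleGraph.fromRel_adj]
    exact ⟨fun h => hc' (congrArg (fun x : XX q T => x.2.val) h).symm, Or.inl (Or.inl ⟨rfl, rfl, hc'⟩)⟩

/-- the neighbour of a leaf of a hub -/
theorem nb_a (j : Fin q → Bool) (c : Fin (kh q)) (u : (cf q T).Vert ε) :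
    ((cf q T).Gr ε Finset.univ).Adj (vr ⟨j, Sum.inl c⟩) u ↔ u = vh j := by
  rw [adj_iff]
  constructor
  · rintro ⟨-, h⟩
    have key : ∀ r' : RR q, u = vr r' → u = vh j := by
      rintro r' rfl
      rw [rel_rr, rel_rr] at h
      rcases h with h | h
      · have h1 := lvl_par h
        exact absurd h1 (by simp [lvl])
      · simp [rpar] at h
    rcases case_v u with ⟨g', k', c', rfl⟩ | ⟨j', rfl⟩ | ⟨j', c', h1⟩ | ⟨j', b, c', h1⟩
    · rcases h with h | h
      · exact absurd h (rel_rl g' k' c' _)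
      · exact absurd h (rel_lr g' k' c' _)
    · rcases h with h | h
      · exact absurd h (rel_rh j' _)
      · rw [rel_hr] at h
        have h2 : (Sum.inl j' : (Fin q → Bool) ⊕ RR q) = Sum.inl j := h
        rw [Sum.inl.inj h2]
    · exact key _ h1
    · exact key _ h1
  · rintro rfl
    refine ⟨fun h => ?_, Or.inr ?_⟩
    · have h1 := Sum.inr.inj h
      cases h1
    · rw [rel_hr]
      rfl

/-- the neighbour of a leaf of a path vertex -/
theorem nb_b (j : Fin q → Bool) (b : Fin q) (c : Fin (kr b.val (j b) + 1)) (hc : c ≠ 0)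
    (u : (cf q T).Vert ε) :
    ((cf q T).Gr ε Finset.univ).Adj (vr ⟨j, Sum.inr ⟨b, c⟩⟩) u ↔ u = vr ⟨j, Sum.inr ⟨b, 0⟩⟩ := by
  have hc' : c.val ≠ 0 := fun h => hc (Fin.ext h)
  have hpar : rpar q ⟨j, Sum.inr ⟨b, c⟩⟩ = Sum.inr ⟨j, Sum.inr ⟨b, 0⟩⟩ := by
    simp only [rpar]
    rw [if_neg hc']
  rw [adj_iff]
  constructor
  · rintro ⟨-, h⟩
    have key : ∀ r' : RR q, u = vr r' → u = vr ⟨j, Sum.inr ⟨b, 0⟩⟩ := by
      rintro r' rfl
      rw [rel_rr, rel_rr] at h
      rcases h with h | h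
      · have h1 := lvl_par h
        exact absurd h1 hc'
      · rw [hpar] at h
        rw [Sum.inr.inj h]
    rcases case_v u with ⟨g', k', c', rfl⟩ | ⟨j', rfl⟩ | ⟨j', c', h1⟩ | ⟨j', b', c', h1⟩
    · rcases h with h | h
      · exact absurd h (rel_rl g' k' c' _)
      · exact absurd h (rel_lr g' k' c' _)
    · rcases h with h | h
      · exact absurd h (rel_rh j' _)
      · rw [rel_hr, hpar] at h
        cases h
    · exact key _ h1
    · exact key _ h1
  · rintro rfl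
    refine ⟨fun h => ?_, Or.inr ?_⟩
    · have h1 : (⟨j, Sum.inr ⟨b, c⟩⟩ : RR q) = ⟨j, Sum.inr ⟨b, 0⟩⟩ := Sum.inr.inj (Sum.inr.inj h)
      exact hc' (congrArg lvl h1)
    · rw [rel_rr, hpar]

/-- exactly one neighbour -/
def D1 (w : (cf q T).Vert ε) : Prop :=
  Nat.card {u // ((cf q T).Gr ε Finset.univ).Adj w u} = 1

theorem d1_of {w a : (cf q T).Vert ε} (h : ∀ u, ((cf q T).Gr ε Finset.univ).Adj w u ↔ u = a) :
    D1 w := by
  unfold D1
  rw [Nat.card_congr (Equiv.subtypeEquivRight h), Nat.card_unique]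

theorem nd1_of {w a b : (cf q T).Vert ε} (ha : ((cf q T).Gr ε Finset.univ).Adj w a)
    (hb : ((cf q T).Gr ε Finset.univ).Adj w b) (hab : a ≠ b) : ¬ D1 w := by
  intro h
  have h1 := (Nat.card_eq_one_iff_unique.1 h).1
  exact hab (congrArg Subtype.val (h1.elim ⟨a, ha⟩ ⟨b, hb⟩))

theorem kx_ge (k : KX q T) : 2 ≤ kx q T k := by
  unfold kx
  omega

theorem nd1_l (g : {g : Equiv.Perm (Fin q → Bool) // Equiv.Perm.sign g = ε}) (k : KX q T) :
    ¬ D1 (vl g k 0) := by
  have h2 := kx_ge k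
  have h0 : ∀ i : Fin (kx q T k), i.succ ≠ 0 := fun i => Fin.succ_ne_zero i
  refine nd1_of ((nb_l g k (Fin.succ ⟨0, by omega⟩) (h0 _) _).2 rfl).symm
    ((nb_l g k (Fin.succ ⟨1, by omega⟩) (h0 _) _).2 rfl).symm fun h => ?_
  have h3 := (vl_inj h).2.2
  simp at h3

theorem nd1_h (j : Fin q → Bool) : ¬ D1 (vh j : (cf q T).Vert ε) := by
  have h2 : 2 ≤ kh q := by unfold kh; omega
  refine nd1_of ((nb_a j ⟨0, by omega⟩ _).2 rfl).symm ((nb_a j ⟨1, by omega⟩ _).2 rfl).symm
    fun h => ?_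
  have h1 := Sum.inr.inj (Sum.inr.inj h)
  have h3 : (⟨0, by omega⟩ : Fin (kh q)) = ⟨1, by omega⟩ :=
    Sum.inl.inj (eq_of_heq (Sigma.mk.inj h1).2)
  have h4 := congrArg Fin.val h3
  simp at h4

theorem nd1_b (j : Fin q → Bool) (b : Fin q) :
    ¬ D1 (vr ⟨j, Sum.inr ⟨b, 0⟩⟩ : (cf q T).Vert ε) := by
  have h2 : 2 ≤ kr b.val (j b) := by unfold kr; omega
  have h0 : ∀ i : Fin (kr b.val (j b)), i.succ ≠ 0 := fun i => Fin.succ_ne_zero i
  refine nd1_of ((nb_b j b (Fin.succ ⟨0, by omega⟩) (h0 _) _).2 rfl).symm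
    ((nb_b j b (Fin.succ ⟨1, by omega⟩) (h0 _) _).2 rfl).symm fun h => ?_
  have h1 := Sum.inr.inj (Sum.inr.inj h)
  have h3 := congrArg lvl h1
  simp [lvl] at h3

theorem lea : LeaStmt := by
  intro q T ε lv hlv
  have hlv' : ∀ v, lv v = Nat.card {w // ((cf q T).Gr ε Finset.univ).Adj v w ∧ D1 w} := hlv
  -- leaves have no leaves
  have hzero : ∀ v a : (cf q T).Vert ε, (∀ u, ((cf q T).Gr ε Finset.univ).Adj v u ↔ u = a) →
      ¬ D1 a → lv v = 0 := by
    intro v a h ha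
    rw [hlv']
    have : IsEmpty {w // ((cf q T).Gr ε Finset.univ).Adj v w ∧ D1 w} := by
      refine ⟨fun ⟨w, hw1, hw2⟩ => ?_⟩
      rw [h] at hw1
      rw [hw1] at hw2
      exact ha hw2
    exact Nat.card_of_isEmpty
  refine ⟨fun g k => ?_, fun g k c hc => ?_, fun j => ?_, fun j c => ?_, fun j b => ?_,
    fun j b c hc => ?_⟩
  · show lv (vl g k 0) = kx q T k
    rw [hlv']
    have hf : ∀ c : Fin (kx q T k), ((cf q T).Gr ε Finset.univ).Adj (vl g k 0) (vl g k c.succ) ∧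
        D1 (vl g k c.succ) := fun c =>
      ⟨((nb_l g k c.succ (Fin.succ_ne_zero c) _).2 rfl).symm,
        d1_of (nb_l g k c.succ (Fin.succ_ne_zero c))⟩
    have hbij : Function.Bijective (fun c : Fin (kx q T k) =>
        (⟨vl g k c.succ, hf c⟩ : {w // ((cf q T).Gr ε Finset.univ).Adj (vl g k 0) w ∧ D1 w})) := by
      constructor
      · intro c c' h
        have h1 := (vl_inj (congrArg Subtype.val h)).2.2
        apply Fin.ext
        simpa using h1
      · rintro ⟨w, hw1, hw2⟩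
        rcases case_v w with ⟨g', k', c', rfl⟩ | ⟨j, rfl⟩ | ⟨j, c', rfl⟩ | ⟨j, b, c', rfl⟩
        · by_cases hc' : c' = 0
          · rw [hc'] at hw2
            exact absurd hw2 (nd1_l g' k')
          · have h1 := (nb_l g' k' c' hc' _).1 hw1.symm
            obtain ⟨h2, h3, -⟩ := vl_inj h1
            subst h2
            subst h3
            obtain ⟨c, hc⟩ := Fin.exists_succ_eq.2 hc'
            refine ⟨c, ?_⟩
            apply Subtype.ext
            show vl g k c.succ = vl g k c'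
            rw [hc]
        · exact absurd hw2 (nd1_h j)
        · have h1 := (nb_a j c' _).1 hw1.symm
          cases h1
        · by_cases hc' : c' = 0
          · rw [hc'] at hw2
            exact absurd hw2 (nd1_b j b)
          · have h1 := (nb_b j b c' hc' _).1 hw1.symm
            cases h1
    rw [← Nat.card_congr (Equiv.ofBijective _ hbij), Nat.card_fin]
  · exact hzero _ _ (nb_l g k c hc) (nd1_l g k)
  · show lv (vh j) = kh q
    rw [hlv']
    have hf : ∀ c : Fin (kh q), ((cf q T).Gr ε Finset.univ).Adj (vh j) (vr ⟨j, Sum.inl c⟩) ∧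
        D1 (vr ⟨j, Sum.inl c⟩ : (cf q T).Vert ε) := fun c =>
      ⟨((nb_a j c _).2 rfl).symm, d1_of (nb_a j c)⟩
    have hbij : Function.Bijective (fun c : Fin (kh q) =>
        (⟨vr ⟨j, Sum.inl c⟩, hf c⟩ :
          {w // ((cf q T).Gr ε Finset.univ).Adj (vh j) w ∧ D1 w})) := by
      constructor
      · intro c c' h
        have h1 := Sum.inr.inj (Sum.inr.inj (congrArg Subtype.val h))
        exact Sum.inl.inj (eq_of_heq (Sigma.mk.inj h1).2)
      · rintro ⟨w, hw1, hw2⟩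
        rcases case_v w with ⟨g', k', c', rfl⟩ | ⟨j', rfl⟩ | ⟨j', c', rfl⟩ | ⟨j', b, c', rfl⟩
        · by_cases hc' : c' = 0
          · rw [hc'] at hw2
            exact absurd hw2 (nd1_l g' k')
          · have h1 := (nb_l g' k' c' hc' _).1 hw1.symm
            cases h1
        · exact absurd hw2 (nd1_h j')
        · have h1 := (nb_a j' c' _).1 hw1.symm
          have h2 : j = j' := Sum.inl.inj (Sum.inr.inj h1)
          subst h2
          exact ⟨c', rfl⟩
        · by_cases hc' : c' = 0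
          · rw [hc'] at hw2
            exact absurd hw2 (nd1_b j' b)
          · have h1 := (nb_b j' b c' hc' _).1 hw1.symm
            have h2 := Sum.inr.inj h1
            cases h2
    rw [← Nat.card_congr (Equiv.ofBijective _ hbij), Nat.card_fin]
  · exact hzero _ _ (nb_a j c) (nd1_h j)
  · show lv (vr ⟨j, Sum.inr ⟨b, 0⟩⟩) = kr b.val (j b)
    rw [hlv']
    have hf : ∀ c : Fin (kr b.val (j b)), ((cf q T).Gr ε Finset.univ).Adj
        (vr ⟨j, Sum.inr ⟨b, 0⟩⟩) (vr ⟨j, Sum.inr ⟨b, c.succ⟩⟩) ∧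
        D1 (vr ⟨j, Sum.inr ⟨b, c.succ⟩⟩ : (cf q T).Vert ε) := fun c =>
      ⟨((nb_b j b c.succ (Fin.succ_ne_zero c) _).2 rfl).symm,
        d1_of (nb_b j b c.succ (Fin.succ_ne_zero c))⟩
    have hbij : Function.Bijective (fun c : Fin (kr b.val (j b)) =>
        (⟨vr ⟨j, Sum.inr ⟨b, c.succ⟩⟩, hf c⟩ :
          {w // ((cf q T).Gr ε Finset.univ).Adj (vr ⟨j, Sum.inr ⟨b, 0⟩⟩) w ∧ D1 w})) := by
      constructor
      · intro c c' h
        have h1 := Sum.inr.inj (Sum.inr.inj (congrArg Subtype.val h))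
        have h2 := congrArg lvl h1
        apply Fin.ext
        simpa [lvl] using h2
      · rintro ⟨w, hw1, hw2⟩
        rcases case_v w with ⟨g', k', c', rfl⟩ | ⟨j', rfl⟩ | ⟨j', c', rfl⟩ | ⟨j', b', c', rfl⟩
        · by_cases hc' : c' = 0
          · rw [hc'] at hw2
            exact absurd hw2 (nd1_l g' k')
          · have h1 := (nb_l g' k' c' hc' _).1 hw1.symm
            cases h1
        · exact absurd hw2 (nd1_h j')
        · have h1 := (nb_a j' c' _).1 hw1.symm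
          have h2 := Sum.inr.inj h1
          cases h2
        · by_cases hc' : c' = 0
          · rw [hc'] at hw2
            exact absurd hw2 (nd1_b j' b')
          · have h1 := (nb_b j' b' c' hc' _).1 hw1.symm
            have h2 : (⟨j, Sum.inr ⟨b, 0⟩⟩ : RR q) = ⟨j', Sum.inr ⟨b', 0⟩⟩ :=
              Sum.inr.inj (Sum.inr.inj h1)
            have h3 : j = j' := congrArg Sigma.fst h2
            subst h3
            have h4 : b = b' := by
              have h5 := eq_of_heq (Sigma.mk.inj h2).2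
              exact congrArg Sigma.fst (Sum.inr.inj h5)
            subst h4
            obtain ⟨c, hc⟩ := Fin.exists_succ_eq.2 hc'
            refine ⟨c, ?_⟩
            apply Subtype.ext
            show vr ⟨j, Sum.inr ⟨b, c.succ⟩⟩ = vr ⟨j, Sum.inr ⟨b, c'⟩⟩
            rw [hc]
    rw [← Nat.card_congr (Equiv.ofBijective _ hbij), Nat.card_fin]
  · exact hzero _ _ (nb_b j b c hc) (nd1_b j b)

end Pool.Agent.HMT.H52
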